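import Pool.Agent.Helper89.OS.St1

/-! # Project OS (MP_2b6189_al), module XA: duality, twists, divisibility, the Lagrangian algebra -/

set_option autoImplicit false

namespace Pool.Agent.Helper28.OS

open Matrix ComplexConjugate Pool.Agent.Helper94.YF Pool.Agent.Helper94.YG Pool.Agent.Helper89.OS

private theorem dvd_aux (hR : ∀ q : ℚ, IsIntegral ℤ (q : ℂ) → ∃ m : ℤ, (m : ℚ) = q)
    (A : ℤ) (d : ℕ) (hd : 0 < d) (h : IsIntegral ℤ (((A : ℂ) / (d : ℂ)) ^ 2)) : (d : ℤ) ∣ A := by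
  have h1 : IsIntegral ℤ ((A : ℂ) / (d : ℂ)) := IsIntegral.of_pow (by norm_num) h
  have h2 : (((A : ℚ) / (d : ℚ) : ℚ) : ℂ) = (A : ℂ) / (d : ℂ) := by push_cast; rfl
  rw [← h2] at h1
  obtain ⟨m, hm⟩ := hR _ h1
  refine ⟨m, ?_⟩
  have hd' : (d : ℚ) ≠ 0 := by exact_mod_cast hd.ne'
  have h3 : (A : ℚ) = (d : ℚ) * (m : ℚ) := by
    rw [hm]
    field_simp
  exact_mod_cast h3

private theorem tw_mul_nat {I : Type} [Fintype I] [DecidableEq I] (Z : CentreRep I)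
    (h3 : ∀ x y i, Z.tw (x + y) i = Z.tw x i * Z.tw y i) (h4 : ∀ i, Z.tw 0 i = 1)
    (b : ZMod Z.L) (i : I) (k : ℕ) : Z.tw ((k : ZMod Z.L) * b) i = Z.tw b i ^ k := by
  induction k with
  | zero => simp [h4]
  | succ k ih =>
    rw [Nat.cast_succ, add_mul, one_mul, h3, ih, pow_succ]

/-- **OS MODULE XA.** -/
theorem hXA : StXA := by
  intro hFUS hDUA hNRM hRAT hGRP hENT I _ _ Z p a m b j tu Pi y z hC
  obtain ⟨f1, f2, f3, f4, f5, f6, f7, f8, f9, f10, f11⟩ := hFUS hDUA I Z.toCentreRep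
  obtain ⟨d1, d2, d3, d4, d5, d6⟩ := hDUA I Z.toCentreRep
  obtain ⟨hRa, hRb⟩ := hRAT
  obtain ⟨g1, g2, g3, g4, g5, g6, g7, g8, g9, g10, g11, g12, g13⟩ :=
    hGRP Z.L (p ^ a) b j tu hC.idp.idem hC.jh hC.tu_val hC.tu_mul
  obtain ⟨e1, e2⟩ := hENT hFUS hDUA I Z.toCentreRep b
  have hp0 : (p : ℂ) ≠ 0 := by exact_mod_cast hC.prime.ne_zero
  have hn0 : Z.n ≠ 0 := Z.n_pos.ne'
  have hm0 : m ≠ 0 := by
    rintro rfl
    exact hn0 (by rw [hC.n_eq, mul_zero])
  have hm0' : (m : ℂ) ≠ 0 := by exact_mod_cast hm0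
  have hnC : (Z.n : ℂ) = (p : ℂ) * m := by rw [hC.n_eq]; push_cast; rfl
  -- commutation gives twist one
  have hcomm : ∀ (x c : ZMod Z.L), (U x * s2 c : SL Z.L) = s2 c * U x →
      ∀ i, Z.rho (s2 c) i Z.o ≠ 0 → Z.tw x i = 1 := by
    intro x c hxc i hi
    have h := congrArg (fun M => Z.rho M i Z.o) hxc
    simp only [map_mul, f1, Matrix.diagonal_mul, Matrix.mul_diagonal, f6, mul_one] at h
    exact mul_right_cancel₀ hi (by rw [h, one_mul])
  refine ⟨?_, ?_, ?_, f6 b, ?_, ?_, ?_, ?_, ?_, ?_⟩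
  · intro i
    have h1 : ((y (Z.st i) : ℤ) : ℂ) = (y i : ℂ) := by
      rw [hC.yy, hC.yy]
      have := d6 (s2 b) i Z.o
      rw [d2] at this
      rw [this]
    exact_mod_cast h1
  · intro i
    unfold CentreRep.tw
    rw [d4]
  · intro i
    rw [← tw_mul_nat Z.toCentreRep f3 f4, hC.idp.ann, f4]
  · intro i hy ht
    have hu : Z.rho (s2 b) i Z.o ≠ 0 := by
      intro h0
      apply hy
      have := hC.yy i
      rw [h0, mul_zero] at this
      exact_mod_cast this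
    have h1 := hcomm (1 - b) b g5 i hu
    rw [← f5 i, show (1 : ZMod Z.L) = b + (1 - b) by ring, f3, h1, ht, one_mul]
  · intro i hi
    have h := Z.kap_inv (U b) i
    rw [f1] at h
    have h2 : ∑ j, (Matrix.diagonal (Z.tw b) : Matrix I I ℂ) i j * (Z.kap j : ℂ) =
        Z.tw b i * (Z.kap i : ℂ) := by
      rw [Finset.sum_eq_single i]
      · rw [Matrix.diagonal_apply_eq]
      · intro k _ hk
        rw [Matrix.diagonal_apply_ne _ (Ne.symm hk), zero_mul]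
      · intro h
        exact absurd (Finset.mem_univ i) h
    rw [h2] at h
    have hk : (Z.kap i : ℂ) ≠ 0 := by exact_mod_cast hi
    exact mul_right_cancel₀ hk (by rw [h, one_mul])
  · have h := Z.kap_inv (s2 b) Z.o
    have h1 : ((∑ i, y i * (Z.kap i : ℤ) : ℤ) : ℂ) = (p : ℂ) := by
      push_cast
      have h2 : ∀ i, ((y i : ℤ) : ℂ) * ((Z.kap i : ℕ) : ℂ) =
          (p : ℂ) * (Z.rho (s2 b) Z.o i * (Z.kap i : ℂ)) := by
        intro i
        rw [hC.yy i, e1 i Z.o]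
        ring
      simp only [h2]
      rw [← Finset.mul_sum, h, Z.kap_o]
      simp
    exact_mod_cast h1
  · intro i
    have h := hNRM I Z.toCentreRep 1 i i
    have hd0 : (Z.d i : ℂ) ≠ 0 := by exact_mod_cast (Z.d_pos i).ne'
    have h1 : (Z.n : ℂ) ^ 2 * (Z.rho 1 i i * conj (Z.rho 1 i i)) / (Z.d i : ℂ) ^ 2 =
        ((((p * m : ℕ) : ℤ) : ℂ) / ((Z.d i : ℕ) : ℂ)) ^ 2 := by
      rw [map_one, Matrix.one_apply_eq, map_one, hnC]
      push_cast
      field_simp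
    rw [h1] at h
    have h2 := dvd_aux hRb _ _ (Z.d_pos i) h
    exact_mod_cast h2
  · intro i
    have h := hNRM I Z.toCentreRep (s2 (1 - b)) i Z.o
    have hd0 : (Z.d i : ℂ) ≠ 0 := by exact_mod_cast (Z.d_pos i).ne'
    have hu : Z.rho (s2 (1 - b)) i Z.o = (z i : ℂ) / (m : ℂ) := by
      rw [hC.zz i]
      field_simp
    have h1 : (Z.n : ℂ) ^ 2 * (Z.rho (s2 (1 - b)) i Z.o * conj (Z.rho (s2 (1 - b)) i Z.o)) /
        (Z.d i : ℂ) ^ 2 = ((((p : ℤ) * z i : ℤ) : ℂ) / ((Z.d i : ℕ) : ℂ)) ^ 2 := by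
      rw [hu, hnC, map_div₀]
      have e1 : conj (z i : ℂ) = (z i : ℂ) := by simp
      have e2 : conj (m : ℂ) = (m : ℂ) := by simp
      rw [e1, e2]
      push_cast
      field_simp
    rw [h1] at h
    exact dvd_aux hRb _ _ (Z.d_pos i) h
  · intro i hz
    have hu : Z.rho (s2 (1 - b)) i Z.o ≠ 0 := by
      intro h0
      apply hz
      have := hC.zz i
      rw [h0, mul_zero] at this
      exact_mod_cast this
    exact hcomm b (1 - b) g6 i hu

end Pool.Agent.Helper28.OS
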